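import Pool.Agent.helper77.PV.SpecA

/-!
# Project pv (MP_376aaf_an), row K1C: matrices close to an invertible matrix
-/

set_option autoImplicit false

open scoped Matrix Topology
open Filter

namespace Pool.Agent.PV

open Pool.Agent.CZ

section

open scoped Matrix.Norms.Operator

private lemma K1C_norm (A : Type) [NormedRing A] (ι : Type)
    [Fintype ι] [DecidableEq ι] (x : Matrix ι ι A) (r : ℝ) (hr : 0 < r) (h : ∀ i, ∑ j, ‖x i j‖ < r) :
    ‖x‖ < r := by
  rw [Matrix.linfty_opNorm_def]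
  have h2 : (Finset.univ.sup fun i : ι => ∑ j, ‖x i j‖₊) < (⟨r, hr.le⟩ : NNReal) := by
    refine (Finset.sup_lt_iff (α := NNReal) (a := ⟨r, hr.le⟩) hr).2 ?_
    intro i _
    have h4 : ((∑ j, ‖x i j‖₊ : NNReal) : ℝ) = ∑ j, ‖x i j‖ := NNReal.coe_sum _ _
    exact NNReal.coe_lt_coe.1 (h4.trans_lt (h i))
  exact_mod_cast h2

private lemma K1C_ball (A : Type) [NormedRing A] [NormedAlgebra ℂ A] [CompleteSpace A] (ι : Type)
    [Fintype ι] [DecidableEq ι] (g : (Matrix ι ι A)ˣ) :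
    ∃ ε : ℝ, 0 < ε ∧ ∀ x : Matrix ι ι A, (∀ i j, ‖(g : Matrix ι ι A) i j - x i j‖ < ε) → IsUnit x := by
  have hcs : @CompleteSpace (Matrix ι ι A) (PseudoMetricSpace.toUniformSpace) :=
    inferInstanceAs (CompleteSpace (ι → ι → A))
  have hopen : IsOpen {x : Matrix ι ι A | IsUnit x} := Units.isOpen
  obtain ⟨r, hr, hball⟩ := Metric.isOpen_iff.1 hopen (g : Matrix ι ι A) g.isUnit
  have hc : (0 : ℝ) < (Fintype.card ι : ℝ) + 1 := by positivity
  refine ⟨r / ((Fintype.card ι : ℝ) + 1), by positivity, fun x hx => hball ?_⟩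
  rw [Metric.mem_ball, dist_eq_norm, norm_sub_rev]
  refine K1C_norm A ι _ r hr fun i => ?_
  calc ∑ j, ‖((g : Matrix ι ι A) - x) i j‖ ≤ ∑ _j : ι, r / ((Fintype.card ι : ℝ) + 1) :=
        Finset.sum_le_sum fun j _ => (hx i j).le
    _ = Fintype.card ι * (r / ((Fintype.card ι : ℝ) + 1)) := by
        rw [Finset.sum_const, Finset.card_univ, nsmul_eq_mul]
    _ < r := by
        rw [← mul_div_assoc, div_lt_iff₀ hc]
        nlinarith

end

theorem K1C : K1C_stmt := by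
  intro A _ _ _ ι _ _ g
  obtain ⟨ε, hε, hball⟩ := K1C_ball A ι g
  refine ⟨ε, hε, fun h hh => ?_⟩
  have hu : IsUnit h := hball h hh
  refine ⟨hu.unit, hu.unit_spec, ?_⟩
  have hcont : Continuous fun t : unitInterval => (g : Matrix ι ι A) + ((t : ℝ) : ℂ) • (h - (g : Matrix ι ι A)) := by
    refine continuous_matrix fun i j => ?_
    show Continuous fun t : unitInterval => (g : Matrix ι ι A) i j + ((t : ℝ) : ℂ) • (h i j - (g : Matrix ι ι A) i j)
    fun_prop
  refine ⟨⟨_, hcont⟩, fun t => hball _ fun i j => ?_, ?_, ?_⟩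
  · show ‖(g : Matrix ι ι A) i j - ((g : Matrix ι ι A) i j + ((t : ℝ) : ℂ) • (h i j - (g : Matrix ι ι A) i j))‖ < ε
    have h1 : (g : Matrix ι ι A) i j - ((g : Matrix ι ι A) i j + ((t : ℝ) : ℂ) • (h i j - (g : Matrix ι ι A) i j)) =
        ((t : ℝ) : ℂ) • ((g : Matrix ι ι A) i j - h i j) := by
      rw [smul_sub, smul_sub]; abel
    rw [h1, norm_smul, Complex.norm_real, Real.norm_eq_abs, abs_of_nonneg t.2.1]
    calc (t : ℝ) * ‖(g : Matrix ι ι A) i j - h i j‖ ≤ 1 * ‖(g : Matrix ι ι A) i j - h i j‖ :=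
          mul_le_mul_of_nonneg_right t.2.2 (norm_nonneg _)
      _ < ε := by rw [one_mul]; exact hh i j
  · show (g : Matrix ι ι A) + (((0 : unitInterval) : ℝ) : ℂ) • (h - (g : Matrix ι ι A)) = g
    simp
  · show (g : Matrix ι ι A) + (((1 : unitInterval) : ℝ) : ℂ) • (h - (g : Matrix ι ι A)) = hu.unit
    simp

end Pool.Agent.PV
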