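import Pool.Agent.helper77.PV.SpecB

/-!
# Project pv (MP_376aaf_an), row KRA: linear elements with `q` equivalent to a unit matrix
-/

set_option autoImplicit false

open scoped Matrix Topology
open Filter

namespace Pool.Agent.PV

open Pool.Agent.CZ

section algebra

/-- the matrix `C` is invertible -/
private lemma KRA_C {B : Type} [Ring B] {κ μ : Type} [Fintype κ] [DecidableEq κ] [Fintype μ]
    [DecidableEq μ] (a b r0 ρ q q' Q : Matrix κ κ B) (s σ : Matrix κ μ B) (s' σ' : Matrix μ κ B)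
    (hss : s * s' = q) (hs : s' * s = 1) (hσσ : σ * σ' = Q) (hσ : σ' * σ = 1)
    (hQ : Q = ρ * b) (hq' : q' = b * ρ) (r0a : r0 * a = 1 - q) (ar0 : a * r0 = 1 - q')
    (aq : a * q = q' * a) (bq : b * Q = q' * b) (qn : Q * ρ = ρ) (qp : q * r0 = 0)
    (nq : ρ * q' = ρ) :
    (a * (1 - q) + b * σ * s') * (r0 * (1 - q') + s * (σ' * ρ)) = 1 ∧
      (r0 * (1 - q') + s * (σ' * ρ)) * (a * (1 - q) + b * σ * s') = 1 := by
  have e1 : (1 - q) * s = 0 := by
    rw [Matrix.sub_mul, Matrix.one_mul, ← hss, Matrix.mul_assoc, hs, Matrix.mul_one, sub_self]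
  have e2 : s' * q = s' := by rw [← hss, ← Matrix.mul_assoc, hs, Matrix.one_mul]
  have e2' : s' * (1 - q) = 0 := by rw [Matrix.mul_sub, Matrix.mul_one, e2, sub_self]
  have e3 : s' * r0 = 0 := by
    rw [← e2, Matrix.mul_assoc, qp, Matrix.mul_zero]
  have e4 : (1 - q) * r0 = r0 := by rw [Matrix.sub_mul, Matrix.one_mul, qp, sub_zero]
  have qq : q * q = q := by
    calc q * q = s * (s' * s) * s' := by rw [← hss]; simp only [Matrix.mul_assoc]
      _ = q := by rw [hs, Matrix.mul_one, hss]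
  have q'q' : q' * q' = q' := by
    calc q' * q' = b * (ρ * q') := by rw [hq', Matrix.mul_assoc]
      _ = q' := by rw [nq, hq']
  have p1 : (1 - q') * (1 - q') = 1 - q' := by
    rw [Matrix.mul_sub, Matrix.mul_one, Matrix.sub_mul, Matrix.one_mul, q'q', sub_self, sub_zero]
  have p2 : (1 - q) * (1 - q) = 1 - q := by
    rw [Matrix.mul_sub, Matrix.mul_one, Matrix.sub_mul, Matrix.one_mul, qq, sub_self, sub_zero]
  have p3 : (1 - q') * a = a * (1 - q) := by
    rw [Matrix.sub_mul, Matrix.mul_sub, Matrix.one_mul, Matrix.mul_one, aq]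
  have p4 : (1 - q') * (b * σ) = 0 := by
    have h1 : q' * (b * σ) = b * σ := by
      calc q' * (b * σ) = (q' * b) * σ := by rw [Matrix.mul_assoc]
        _ = b * (σ * (σ' * σ)) := by rw [← bq, ← hσσ]; simp only [Matrix.mul_assoc]
        _ = b * σ := by rw [hσ, Matrix.mul_one]
    rw [Matrix.sub_mul, Matrix.one_mul, h1, sub_self]
  have p5 : ρ * (1 - q') = 0 := by rw [Matrix.mul_sub, Matrix.mul_one, nq, sub_self]
  constructor
  · have t1 : a * (1 - q) * (r0 * (1 - q')) = 1 - q' := by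
      calc a * (1 - q) * (r0 * (1 - q')) = a * ((1 - q) * r0) * (1 - q') := by
            simp only [Matrix.mul_assoc]
        _ = 1 - q' := by rw [e4, ar0, p1]
    have t2 : a * (1 - q) * (s * (σ' * ρ)) = 0 := by
      calc a * (1 - q) * (s * (σ' * ρ)) = a * ((1 - q) * s) * (σ' * ρ) := by
            simp only [Matrix.mul_assoc]
        _ = 0 := by rw [e1, Matrix.mul_zero, Matrix.zero_mul]
    have t3 : b * σ * s' * (r0 * (1 - q')) = 0 := by
      calc b * σ * s' * (r0 * (1 - q')) = b * σ * (s' * r0) * (1 - q') := by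
            simp only [Matrix.mul_assoc]
        _ = 0 := by rw [e3, Matrix.mul_zero, Matrix.zero_mul]
    have t4 : b * σ * s' * (s * (σ' * ρ)) = q' := by
      calc b * σ * s' * (s * (σ' * ρ)) = b * (σ * (s' * s) * σ') * ρ := by
            simp only [Matrix.mul_assoc]
        _ = b * (Q * ρ) := by rw [hs, Matrix.mul_one, hσσ, Matrix.mul_assoc]
        _ = q' := by rw [qn, hq']
    rw [Matrix.add_mul, Matrix.mul_add, Matrix.mul_add, t1, t2, t3, t4, add_zero, zero_add,
      sub_add_cancel]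
  · have t1 : r0 * (1 - q') * (a * (1 - q)) = 1 - q := by
      calc r0 * (1 - q') * (a * (1 - q)) = r0 * ((1 - q') * a) * (1 - q) := by
            simp only [Matrix.mul_assoc]
        _ = (r0 * a) * ((1 - q) * (1 - q)) := by rw [p3]; simp only [Matrix.mul_assoc]
        _ = 1 - q := by rw [r0a, p2, p2]
    have t2 : r0 * (1 - q') * (b * σ * s') = 0 := by
      calc r0 * (1 - q') * (b * σ * s') = r0 * ((1 - q') * (b * σ)) * s' := by
            simp only [Matrix.mul_assoc]
        _ = 0 := by rw [p4, Matrix.mul_zero, Matrix.zero_mul]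
    have t3 : s * (σ' * ρ) * (a * (1 - q)) = 0 := by
      calc s * (σ' * ρ) * (a * (1 - q)) = s * σ' * (ρ * (a * (1 - q))) := by
            simp only [Matrix.mul_assoc]
        _ = s * σ' * (ρ * (1 - q') * a) := by rw [← p3, Matrix.mul_assoc ρ]
        _ = 0 := by rw [p5, Matrix.zero_mul, Matrix.mul_zero]
    have t4 : s * (σ' * ρ) * (b * σ * s') = q := by
      calc s * (σ' * ρ) * (b * σ * s') = s * (σ' * (ρ * b) * σ) * s' := by
            simp only [Matrix.mul_assoc]
        _ = s * ((σ' * σ) * (σ' * σ)) * s' := by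
            rw [← hQ, ← hσσ]; simp only [Matrix.mul_assoc]
        _ = q := by rw [hσ, Matrix.mul_one, Matrix.mul_one, hss]
    rw [Matrix.add_mul, Matrix.mul_add, Matrix.mul_add, t1, t2, t3, t4, add_zero, zero_add,
      sub_add_cancel]

/-- the matrix `V` is invertible, and `L₀ = C V` -/
private lemma KRA_V {A : Type} [Ring A] {κ μ : Type} [Fintype κ] [DecidableEq κ] [Fintype μ]
    [DecidableEq μ] (a b q U : Matrix κ κ A) (W W' : Matrix μ μ A) (s σ : Matrix κ μ A)
    (s' : Matrix μ κ A) (hss : s * s' = q) (hs : s' * s = 1) (hW : W * W' = 1) (hW' : W' * W = 1)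
    (hU : U * s = σ * W) :
    ((1 - q) + s * W * s') * ((1 - q) + s * W' * s') = 1 ∧
    ((1 - q) + s * W' * s') * ((1 - q) + s * W * s') = 1 ∧
    (a * (1 - q) + b * σ * s') * ((1 - q) + s * W * s') = a * (1 - q) + b * U * q := by
  have e1 : (1 - q) * s = 0 := by
    rw [Matrix.sub_mul, Matrix.one_mul, ← hss, Matrix.mul_assoc, hs, Matrix.mul_one, sub_self]
  have e2 : s' * q = s' := by rw [← hss, ← Matrix.mul_assoc, hs, Matrix.one_mul]
  have e2' : s' * (1 - q) = 0 := by rw [Matrix.mul_sub, Matrix.mul_one, e2, sub_self]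
  have qq : q * q = q := by
    calc q * q = s * (s' * s) * s' := by rw [← hss]; simp only [Matrix.mul_assoc]
      _ = q := by rw [hs, Matrix.mul_one, hss]
  have p2 : (1 - q) * (1 - q) = 1 - q := by
    rw [Matrix.mul_sub, Matrix.mul_one, Matrix.sub_mul, Matrix.one_mul, qq, sub_self, sub_zero]
  have key : ∀ X Y : Matrix μ μ A, X * Y = 1 →
      ((1 - q) + s * X * s') * ((1 - q) + s * Y * s') = 1 := by
    intro X Y hXY
    have t2 : (1 - q) * (s * Y * s') = 0 := by
      calc (1 - q) * (s * Y * s') = ((1 - q) * s) * Y * s' := by simp only [Matrix.mul_assoc]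
        _ = 0 := by rw [e1, Matrix.zero_mul, Matrix.zero_mul]
    have t3 : s * X * s' * (1 - q) = 0 := by
      rw [Matrix.mul_assoc, e2', Matrix.mul_zero]
    have t4 : s * X * s' * (s * Y * s') = q := by
      calc s * X * s' * (s * Y * s') = s * X * (s' * s) * Y * s' := by
            simp only [Matrix.mul_assoc]
        _ = s * (X * Y) * s' := by rw [hs, Matrix.mul_one]; simp only [Matrix.mul_assoc]
        _ = q := by rw [hXY, Matrix.mul_one, hss]
    rw [Matrix.add_mul, Matrix.mul_add, Matrix.mul_add, p2, t2, t3, t4, add_zero, zero_add,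
      sub_add_cancel]
  refine ⟨key W W' hW, key W' W hW', ?_⟩
  have t1 : a * (1 - q) * (1 - q) = a * (1 - q) := by rw [Matrix.mul_assoc, p2]
  have t2 : a * (1 - q) * (s * W * s') = 0 := by
    calc a * (1 - q) * (s * W * s') = a * ((1 - q) * s) * W * s' := by simp only [Matrix.mul_assoc]
      _ = 0 := by rw [e1, Matrix.mul_zero, Matrix.zero_mul, Matrix.zero_mul]
  have t3 : b * σ * s' * (1 - q) = 0 := by rw [Matrix.mul_assoc, e2', Matrix.mul_zero]
  have t4 : b * σ * s' * (s * W * s') = b * U * q := by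
    calc b * σ * s' * (s * W * s') = b * (σ * (s' * s) * W) * s' := by
          simp only [Matrix.mul_assoc]
      _ = b * (U * s) * s' := by rw [hs, Matrix.mul_one, hU]
      _ = b * U * q := by rw [← hss]; simp only [Matrix.mul_assoc]
  rw [Matrix.add_mul, Matrix.mul_add, Matrix.mul_add, t1, t2, t3, t4, add_zero, zero_add]

private lemma KRA_uM {A : Type} [Ring A] (ι : Type) [Fintype ι] [DecidableEq ι] (u : Aˣ) :
    (uM ι u : Matrix ι ι A) = Matrix.diagonal fun _ => (u : A) := rfl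

private lemma KRA_uM' {A : Type} [Ring A] (ι : Type) [Fintype ι] [DecidableEq ι] (u : Aˣ) :
    (((uM ι u)⁻¹ : (Matrix ι ι A)ˣ) : Matrix ι ι A) = Matrix.diagonal fun _ => ((u⁻¹ : Aˣ) : A) := rfl

end algebra

section top

/-- reindexing of scalar matrices -/
private lemma KRA_rix (hK1T : K1T_stmt) (A : Type) [NormedRing A] [NormedAlgebra ℂ A] (u : Aˣ) (ι κ : Type)
    [Fintype ι] [DecidableEq ι] [Fintype κ] [DecidableEq κ] (f : ι ≃ κ) :
    k1 (uM ι u) = k1 (uM κ u) := by
  refine hK1T.2 A ι κ 1 1 ((1 : Matrix κ κ A).submatrix f id) ((1 : Matrix κ κ A).submatrix id f)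
    (uM ι u : Matrix ι ι A) (uM ι u) (uM κ u) ?_ ?_ (Matrix.one_mul _) (Matrix.mul_one _)
    (Matrix.one_mul _) (Matrix.mul_one _) (Matrix.one_mul _) (Matrix.mul_one _) ?_ ?_
  · have h := Matrix.submatrix_mul_equiv (1 : Matrix κ κ A) (1 : Matrix κ κ A) f (Equiv.refl κ) f
    have h2 : (1 : Matrix κ κ A).submatrix f id * (1 : Matrix κ κ A).submatrix id f =
        ((1 : Matrix κ κ A) * 1).submatrix f f := h
    rw [h2, Matrix.one_mul, Matrix.submatrix_one_equiv]
  · have h := Matrix.submatrix_mul_equiv (1 : Matrix κ κ A) (1 : Matrix κ κ A) id f id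
    rw [h, Matrix.one_mul, Matrix.submatrix_id_id]
  · rw [sub_self, add_zero]
  · rw [sub_self, add_zero, KRA_uM, KRA_uM]
    rw [Matrix.one_submatrix_mul, Matrix.mul_submatrix_one]
    ext i j
    simp [Matrix.diagonal_apply]

private lemma KRA_card (hK1M : K1M_stmt) (hK1T : K1T_stmt) (hK1B : K1B_stmt) (A : Type) [NormedRing A]
    [NormedAlgebra ℂ A] (u : Aˣ) (M : ℕ) : k1 (uM (Fin M) u) = M • k1 (uM Unit u) := by
  induction M with
  | zero =>
    have h1 : uM (Fin 0) u = 1 := by
      apply Units.ext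
      ext i
      exact i.elim0
    rw [h1, zero_smul]
    exact (hK1M A (Fin 0) 1 1).2.2.1
  | succ M ih =>
    have h1 : k1 (uM (Fin (M + 1)) u) = k1 (uM (Fin M ⊕ Unit) u) :=
      KRA_rix hK1T A u _ _ (Fintype.equivOfCardEq (by simp))
    have h2 := hK1B A (Fin M) Unit (uM (Fin M) u) (uM Unit u) (uM (Fin M ⊕ Unit) u) (by
      rw [KRA_uM, KRA_uM, KRA_uM, Matrix.fromBlocks_diagonal]
      congr 1
      ext i
      cases i <;> rfl)
    rw [h1, h2, ih, succ_nsmul]

private lemma KRA_map {R S F : Type} [Ring R] [Ring S] [FunLike F R S] [RingHomClass F R S] (f : F)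
    {l m n : Type} [Fintype m] (X : Matrix l m R) (Y : Matrix m n R) :
    (X * Y).map f = X.map f * Y.map f := by
  ext i j
  simp [Matrix.mul_apply, map_sum, map_mul]

private lemma KRA_htp {A : Type} [NormedRing A] [NormedAlgebra ℂ A] {κ : Type} [Fintype κ]
    [DecidableEq κ] (a d q : Matrix κ κ A) (L0 L : (Matrix κ κ A)ˣ)
    (h0 : (L0 : Matrix κ κ A) = a * (1 - q) + d * q) (h1 : (L : Matrix κ κ A) = a + d)
    (hun : ∀ s : ℝ, 0 ≤ s → s ≤ 1 →
      IsUnit ((a + (s : ℂ) • d) * (1 - q) + ((s : ℂ) • a + d) * q)) : Htp L0 L := by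
  have hc : Continuous fun t : unitInterval => ((t : ℝ) : ℂ) :=
    Complex.continuous_ofReal.comp continuous_subtype_val
  refine ⟨⟨fun t => (a + ((t : ℝ) : ℂ) • d) * (1 - q) + (((t : ℝ) : ℂ) • a + d) * q, ?_⟩,
    fun t => hun t t.2.1 t.2.2, ?_, ?_⟩
  · have c1 : Continuous fun t : unitInterval => a + ((t : ℝ) : ℂ) • d :=
      continuous_const.add (hc.smul continuous_const)
    have c2 : Continuous fun t : unitInterval => ((t : ℝ) : ℂ) • a + d :=
      (hc.smul continuous_const).add continuous_const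
    exact (c1.matrix_mul continuous_const).add (c2.matrix_mul continuous_const)
  · change (a + (((0 : unitInterval) : ℝ) : ℂ) • d) * (1 - q) +
      ((((0 : unitInterval) : ℝ) : ℂ) • a + d) * q = (L0 : Matrix κ κ A)
    rw [h0]
    simp
  · change (a + (((1 : unitInterval) : ℝ) : ℂ) • d) * (1 - q) +
      ((((1 : unitInterval) : ℝ) : ℂ) • a + d) * q = (L : Matrix κ κ A)
    rw [h1]
    simp only [Set.Icc.coe_one, Complex.ofReal_one, one_smul]
    rw [← Matrix.mul_add, sub_add_cancel, Matrix.mul_one]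

private lemma KRA_core (hK1M : K1M_stmt) (hK1T : K1T_stmt) (hK1B : K1B_stmt) {B A : Type}
    [NormedRing B] [NormedAlgebra ℂ B] [NormedRing A] [NormedAlgebra ℂ A] (al : B ≃ₐ[ℂ] B)
    (io : B →ₐ[ℂ] A) (u : Aˣ) (hi : Continuous io.toRingHom)
    (hcov : ∀ b, (u : A) * io b = io (al b) * (u : A)) {κ : Type} [Fintype κ] [DecidableEq κ]
    (a b : Matrix κ κ B) (L : (Matrix κ κ A)ˣ) (M : ℕ) (s : Matrix κ (Fin M) B)
    (s' : Matrix (Fin M) κ B) (r0 ρ q q' : Matrix κ κ B)
    (hL : (L : Matrix κ κ A) = a.map io + b.map io * (uM κ u : Matrix κ κ A))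
    (hss : s * s' = q) (hs : s' * s = 1)
    (hQ : q.map al = ρ * b) (hq' : q' = b * ρ) (r0a : r0 * a = 1 - q) (ar0 : a * r0 = 1 - q')
    (aq : a * q = q' * a) (bq : b * q.map al = q' * b) (qn : q.map al * ρ = ρ) (qp : q * r0 = 0)
    (nq : ρ * q' = ρ)
    (hun : ∀ s : ℝ, 0 ≤ s → s ≤ 1 →
      IsUnit ((a.map io + (s : ℂ) • (b.map io * (uM κ u : Matrix κ κ A))) * (1 - q.map io) +
        ((s : ℂ) • a.map io + b.map io * (uM κ u : Matrix κ κ A)) * q.map io)) :
    ∃ y : K1 B, k1 L = k1map io.toRingHom hi y + M • k1 (uM Unit u) := by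
  have h1map : ∀ {ι : Type} [Fintype ι] [DecidableEq ι] {R S F : Type} [Ring R] [Ring S]
      [FunLike F R S] [RingHomClass F R S] (f : F), (1 : Matrix ι ι R).map f = 1 := by
    intro ι _ _ R S F _ _ _ _ f
    exact Matrix.map_one f (map_zero f) (map_one f)
  have hσσ : s.map al * s'.map al = q.map al := by rw [← KRA_map, hss]
  have hσ : s'.map al * s.map al = 1 := by rw [← KRA_map, hs, h1map]
  have hC := KRA_C a b r0 ρ q q' (q.map al) s (s.map al) s' (s'.map al) hss hs hσσ hσ hQ hq' r0a ar0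
    aq bq qn qp nq
  have hssA : s.map io * s'.map io = q.map io := by rw [← KRA_map, hss]
  have hsA : s'.map io * s.map io = 1 := by rw [← KRA_map, hs, h1map]
  have hU : (uM κ u : Matrix κ κ A) * s.map io =
      (s.map al).map io * (uM (Fin M) u : Matrix (Fin M) (Fin M) A) := by
    rw [KRA_uM, KRA_uM]
    ext i j
    rw [Matrix.diagonal_mul, Matrix.mul_diagonal]
    exact hcov _
  have hV := KRA_V (a.map io) (b.map io) (q.map io) (uM κ u : Matrix κ κ A)
    (uM (Fin M) u : Matrix (Fin M) (Fin M) A)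
    (((uM (Fin M) u)⁻¹ : (Matrix (Fin M) (Fin M) A)ˣ) : Matrix (Fin M) (Fin M) A)
    (s.map io) ((s.map al).map io) (s'.map io) hssA hsA (Units.mul_inv _) (Units.inv_mul _) hU
  let Cu : (Matrix κ κ B)ˣ := ⟨_, _, hC.1, hC.2⟩
  let Vu : (Matrix κ κ A)ˣ := ⟨_, _, hV.1, hV.2.1⟩
  have hCmap : ((umap io.toRingHom Cu : (Matrix κ κ A)ˣ) : Matrix κ κ A) =
      a.map io * (1 - q.map io) + b.map io * (s.map al).map io * s'.map io := by
    change (a * (1 - q) + b * s.map al * s').map io = _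
    have e1 : (a * (1 - q) + b * s.map al * s').map io =
        (a * (1 - q)).map io + (b * s.map al * s').map io := map_add io.mapMatrix _ _
    have e2 : (1 - q).map io = 1 - q.map io := by
      have h := map_sub (io.mapMatrix : Matrix κ κ B →ₐ[ℂ] Matrix κ κ A) 1 q
      rw [map_one] at h
      exact h
    rw [e1, KRA_map, KRA_map, KRA_map, e2]
  have hVu : ((Vu : (Matrix κ κ A)ˣ) : Matrix κ κ A) =
      (1 - q.map io) + s.map io * (uM (Fin M) u : Matrix (Fin M) (Fin M) A) * s'.map io := rfl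
  have hL0 : ((umap io.toRingHom Cu * Vu : (Matrix κ κ A)ˣ) : Matrix κ κ A) =
      a.map io * (1 - q.map io) + b.map io * (uM κ u : Matrix κ κ A) * q.map io := by
    rw [Units.val_mul, hCmap, hVu]
    exact hV.2.2
  have hH : Htp (umap io.toRingHom Cu * Vu) L := KRA_htp (a.map io)
    (b.map io * (uM κ u : Matrix κ κ A)) (q.map io) _ L hL0 hL hun
  have k1a := (hK1M A κ (umap io.toRingHom Cu * Vu) L).2.2.2 hH
  have k1b := (hK1M A κ (umap io.toRingHom Cu) Vu).1
  have eqq : q.map io * q.map io = q.map io := by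
    calc q.map io * q.map io = s.map io * (s'.map io * s.map io) * s'.map io := by
          rw [← hssA]; simp only [Matrix.mul_assoc]
      _ = q.map io := by rw [hsA, Matrix.mul_one, hssA]
  have es : q.map io * s.map io = s.map io := by
    rw [← hssA, Matrix.mul_assoc, hsA, Matrix.mul_one]
  have es' : s'.map io * q.map io = s'.map io := by
    rw [← hssA, ← Matrix.mul_assoc, hsA, Matrix.one_mul]
  have k1c : k1 Vu = k1 (uM (Fin M) u) := by
    refine hK1T.2 A κ (Fin M) (q.map io) 1 (s.map io) (s'.map io)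
      (s.map io * (uM (Fin M) u : Matrix (Fin M) (Fin M) A) * s'.map io) Vu (uM (Fin M) u)
      hssA hsA es (Matrix.mul_one _) (Matrix.one_mul _) es' ?_ ?_ ?_ ?_
    · rw [← Matrix.mul_assoc, ← Matrix.mul_assoc, es]
    · rw [Matrix.mul_assoc, es']
    · rw [hVu, add_comm]
    · rw [sub_self, add_zero]
      calc (uM (Fin M) u : Matrix (Fin M) (Fin M) A)
          = (s'.map io * s.map io) * (uM (Fin M) u : Matrix (Fin M) (Fin M) A) *
            (s'.map io * s.map io) := by rw [hsA, Matrix.one_mul, Matrix.mul_one]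
        _ = _ := by simp only [Matrix.mul_assoc]
  refine ⟨k1 Cu, ?_⟩
  rw [← k1a, k1b, k1c, KRA_card hK1M hK1T hK1B A u M, k1map_k1]

end top

attribute [local instance] Matrix.linftyOpNormedRing Matrix.linftyOpNormedAlgebra

theorem KRA (hQDM : QDM_stmt) (hQPA : QPA_stmt) (hZM : ZM_stmt) (hK1M : K1M_stmt) (hK1T : K1T_stmt) (hK1B : K1B_stmt) : KRA_stmt := by
  intro B A _ _ _ _ _ _ al io u c hi hZ κ _ _ a b L M s s' hL hss hs
  have hD := hQDM B A al io u c hZ κ a b L hL
  have hZκ := hZM B A al io u c hZ κ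
  have cB : @CompleteSpace (Matrix κ κ B) (PseudoMetricSpace.toUniformSpace) :=
    inferInstanceAs (CompleteSpace (κ → κ → B))
  have cA : @CompleteSpace (Matrix κ κ A) (PseudoMetricSpace.toUniformSpace) :=
    inferInstanceAs (CompleteSpace (κ → κ → A))
  have hP := hQPA (Matrix κ κ B) (Matrix κ κ A) al.mapMatrix io.mapMatrix (uM κ u)
    (fun n => (c n).mapMatrix) hZκ a b L hL
  have e1 := hD.hq
  have e2 := hD.hq'
  have e3 := hD.qn (-1) (by norm_num)
  have e4 := hD.nq (-1) (by norm_num)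
  refine KRA_core hK1M hK1T hK1B al io u hi hZ.cov a b L M s s' (rL c L 0) ((rL c L (-1)).map al)
    (qL al c b L) (qL' al c b L) hL hss hs ?_ e2 hD.r0a hD.ar0 hD.aq hD.bq ?_ (hD.qp 0 le_rfl) ?_ hP
  · have h := congrArg al.mapMatrix e1
    rw [map_mul, AlgEquiv.apply_symm_apply] at h
    exact h
  · have h := congrArg al.mapMatrix e3
    rw [map_mul] at h
    exact h
  · have h := congrArg al.mapMatrix e4
    rw [map_mul, zpow_neg_one] at h
    have h2 : al.mapMatrix ((al.mapMatrix⁻¹ : Matrix κ κ B ≃ₐ[ℂ] Matrix κ κ B) (qL' al c b L)) = qL' al c b L :=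
      AlgEquiv.apply_symm_apply _ _
    rw [h2] at h
    exact h

end Pool.Agent.PV
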